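import Pool.Agent.H11.NY.Targets

set_option autoImplicit false

namespace Pool.Agent.H91.NY.AC2

open Pool.Agent.H11.NY

section basics

variable {L : Type} [Group L] {K V : Type} [Field K] [AddCommGroup V] [Module K V]
  (ρ : L →* Module.End K V) (M : Subgroup L) {d : ℕ} (A : Subalgebra K (Module.End K V))
  (Θ : A ≃ₐ[K] Module.End K (Fin d → K))

/-- conjugation by `t` on `A` is induced by `g` -/
def Rl (t : L) (g : Module.End K (Fin d → K)) : Prop :=
  ∀ y y' : A, (y' : Module.End K V) * ρ t = ρ t * (y : Module.End K V) → Θ y' * g = g * Θ y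

theorem rinv (t : L) : ρ t * ρ t⁻¹ = 1 := by rw [← map_mul, mul_inv_cancel, map_one]
theorem linv (t : L) : ρ t⁻¹ * ρ t = 1 := by rw [← map_mul, inv_mul_cancel, map_one]

theorem conj_mem (hM : M.Normal)
    (hA : Subalgebra.toSubmodule A = Submodule.span K {y | ∃ x ∈ M, y = ρ x})
    (t : L) (y : Module.End K V) (hy : y ∈ A) : ρ t * y * ρ t⁻¹ ∈ A := by
  have h1 : y ∈ Subalgebra.toSubmodule A := hy
  clear hy
  rw [hA] at h1
  have h2 : ρ t * y * ρ t⁻¹ ∈ Subalgebra.toSubmodule A := by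
    rw [hA]
    induction h1 using Submodule.span_induction with
    | mem x hx =>
      obtain ⟨m, hm, rfl⟩ := hx
      refine Submodule.subset_span ⟨t * m * t⁻¹, hM.conj_mem m hm t, ?_⟩
      rw [map_mul, map_mul]
    | zero => rw [mul_zero, zero_mul]; exact Submodule.zero_mem _
    | add x y _ _ hx hy => rw [mul_add, add_mul]; exact Submodule.add_mem _ hx hy
    | smul a x _ hx =>
      rw [mul_smul_comm, smul_mul_assoc]; exact Submodule.smul_mem _ _ hx
  exact h2

theorem exists_conj (hM : M.Normal)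
    (hA : Subalgebra.toSubmodule A = Submodule.span K {y | ∃ x ∈ M, y = ρ x})
    (t : L) (y : A) : ∃ y' : A, (y' : Module.End K V) * ρ t = ρ t * (y : Module.End K V) := by
  refine ⟨⟨ρ t * y * ρ t⁻¹, conj_mem ρ M A hM hA t y y.2⟩, ?_⟩
  show ρ t * (y : Module.End K V) * ρ t⁻¹ * ρ t = _
  rw [mul_assoc, linv, mul_one]

theorem rl_mul (hM : M.Normal)
    (hA : Subalgebra.toSubmodule A = Submodule.span K {y | ∃ x ∈ M, y = ρ x})
    {t s : L} {g k : Module.End K (Fin d → K)} (h1 : Rl ρ A Θ t g) (h2 : Rl ρ A Θ s k) :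
    Rl ρ A Θ (t * s) (g * k) := by
  intro y y' h
  obtain ⟨y2, hy2⟩ := exists_conj ρ M A hM hA s y
  have e1 : (y' : Module.End K V) * ρ t = ρ t * (y2 : Module.End K V) := by
    rw [map_mul] at h
    have e2 : ((y' : Module.End K V) * ρ t) * ρ s = (ρ t * (y2 : Module.End K V)) * ρ s := by
      rw [mul_assoc, h, mul_assoc, mul_assoc, hy2]
    have e3 := congrArg (fun z => z * ρ s⁻¹) e2
    simp only [mul_assoc, rinv, mul_one] at e3
    exact e3
  have e4 := h1 y2 y' e1
  have e5 := h2 y y2 hy2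
  rw [← mul_assoc, e4, mul_assoc, e5, mul_assoc]

theorem rl_one : Rl ρ A Θ 1 1 := by
  intro y y' h
  rw [map_one, mul_one, one_mul] at h
  have : y' = y := Subtype.ext h
  rw [this, mul_one, one_mul]

theorem rl_pow (hM : M.Normal)
    (hA : Subalgebra.toSubmodule A = Submodule.span K {y | ∃ x ∈ M, y = ρ x})
    {t : L} {g : Module.End K (Fin d → K)} (h1 : Rl ρ A Θ t g) (n : ℕ) :
    Rl ρ A Θ (t ^ n) (g ^ n) := by
  induction n with
  | zero => rw [pow_zero, pow_zero]; exact rl_one ρ A Θ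
  | succ n ih => rw [pow_succ, pow_succ]; exact rl_mul ρ M A Θ hM hA ih h1

theorem rl_smul {t : L} {g : Module.End K (Fin d → K)} (h1 : Rl ρ A Θ t g) (c : K) :
    Rl ρ A Θ t (c • g) := by
  intro y y' h
  rw [mul_smul_comm, h1 y y' h, smul_mul_assoc]

theorem rl_scal {t : L} {g g' gi : Module.End K (Fin d → K)} (hM : M.Normal)
    (hA : Subalgebra.toSubmodule A = Submodule.span K {y | ∃ x ∈ M, y = ρ x})
    (h1 : Rl ρ A Θ t g)
    (h2 : Rl ρ A Θ t g') (hg : gi * g = 1) (hg' : g * gi = 1) : ∃ z : K, g' = z • g := by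
  have hc : gi * g' ∈ Subalgebra.center K (Module.End K (Fin d → K)) := by
    rw [Subalgebra.mem_center_iff]
    intro b
    obtain ⟨y, rfl⟩ := Θ.surjective b
    obtain ⟨y', hy'⟩ := exists_conj ρ M A hM hA t y
    have e1 := h1 y y' hy'
    have e2 := h2 y y' hy'
    have e3 : gi * Θ y' = Θ y * gi := by
      have : gi * (Θ y' * g) * gi = gi * (g * Θ y) * gi := by rw [e1]
      rw [← mul_assoc, mul_assoc _ g gi, hg', mul_one, ← mul_assoc gi g, hg, one_mul] at this
      exact this
    rw [← mul_assoc, ← e3, mul_assoc, e2, mul_assoc]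
  rw [Algebra.IsCentral.center_eq_bot, Algebra.mem_bot] at hc
  obtain ⟨z, hz⟩ := hc
  refine ⟨z, ?_⟩
  have : g * (gi * g') = g * algebraMap K _ z := by rw [hz]
  rw [← mul_assoc, hg', one_mul] at this
  rw [this, ← Algebra.commutes, Algebra.smul_def]

theorem exists_rl (hM : M.Normal)
    (hA : Subalgebra.toSubmodule A = Submodule.span K {y | ∃ x ∈ M, y = ρ x})
    (t : L) : ∃ g gi : Module.End K (Fin d → K), gi * g = 1 ∧ g * gi = 1 ∧ Rl ρ A Θ t g := by
  let F : L → (A →ₐ[K] A) := fun t =>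
    { toFun := fun y => ⟨ρ t * y * ρ t⁻¹, conj_mem ρ M A hM hA t y y.2⟩
      map_one' := by
        apply Subtype.ext
        show ρ t * (1 : Module.End K V) * ρ t⁻¹ = 1
        rw [mul_one, rinv]
      map_mul' := by
        intro x y
        apply Subtype.ext
        show ρ t * ((x : Module.End K V) * (y : Module.End K V)) * ρ t⁻¹ =
          (ρ t * x * ρ t⁻¹) * (ρ t * y * ρ t⁻¹)
        calc ρ t * ((x : Module.End K V) * (y : Module.End K V)) * ρ t⁻¹
            = ρ t * x * 1 * y * ρ t⁻¹ := by rw [mul_one]; simp only [mul_assoc]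
          _ = ρ t * x * (ρ t⁻¹ * ρ t) * y * ρ t⁻¹ := by rw [linv]
          _ = _ := by simp only [mul_assoc]
      map_zero' := by
        apply Subtype.ext
        show ρ t * (0 : Module.End K V) * ρ t⁻¹ = 0
        rw [mul_zero, zero_mul]
      map_add' := by
        intro x y
        apply Subtype.ext
        show ρ t * ((x : Module.End K V) + (y : Module.End K V)) * ρ t⁻¹ =
          (ρ t * x * ρ t⁻¹) + (ρ t * y * ρ t⁻¹)
        rw [mul_add, add_mul]
      commutes' := by
        intro r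
        apply Subtype.ext
        show ρ t * (algebraMap K (Module.End K V) r) * ρ t⁻¹ = algebraMap K (Module.End K V) r
        rw [← Algebra.commutes, mul_assoc, rinv, mul_one] }
  have hF : ∀ t y, ((F t y : A) : Module.End K V) = ρ t * y * ρ t⁻¹ := fun t y => rfl
  have hFF : ∀ t, (F t).comp (F t⁻¹) = AlgHom.id K A := by
    intro t
    apply AlgHom.ext
    intro y
    apply Subtype.ext
    rw [AlgHom.comp_apply, hF, hF, inv_inv]
    calc ρ t * (ρ t⁻¹ * (y : Module.End K V) * ρ t) * ρ t⁻¹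
        = (ρ t * ρ t⁻¹) * y * (ρ t * ρ t⁻¹) := by simp only [mul_assoc]
      _ = y := by rw [rinv, one_mul, mul_one]
  have hFF' : ∀ t, (F t⁻¹).comp (F t) = AlgHom.id K A := by
    intro t
    have := hFF t⁻¹
    rwa [inv_inv] at this
  let Fe : A ≃ₐ[K] A := AlgEquiv.ofAlgHom (F t) (F t⁻¹) (hFF t) (hFF' t)
  let f : Module.End K (Fin d → K) ≃ₐ[K] Module.End K (Fin d → K) := (Θ.symm.trans Fe).trans Θ
  obtain ⟨T, hT⟩ := AlgEquiv.eq_linearEquivConjAlgEquiv f
  refine ⟨T.toLinearMap, T.symm.toLinearMap, ?_, ?_, ?_⟩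
  · apply LinearMap.ext
    intro v
    show T.symm (T v) = v
    exact T.symm_apply_apply v
  · apply LinearMap.ext
    intro v
    show T (T.symm v) = v
    exact T.apply_symm_apply v
  · intro y y' h
    have e1 : y' = F t y := by
      apply Subtype.ext
      rw [hF, ← h, mul_assoc, rinv, mul_one]
    have e2 : Θ y' = f (Θ y) := by
      rw [e1]
      show Θ (F t y) = Θ (Fe (Θ.symm (Θ y)))
      rw [Θ.symm_apply_apply]
      rfl
    rw [e2, hT]
    apply LinearMap.ext
    intro v
    show T ((Θ y) (T.symm (T v))) = T ((Θ y) v)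
    rw [T.symm_apply_apply]

end basics

theorem pf_ac2 : T_AC2 := by
  intro L _ _ K V _ _ _ _ ρ M hM d A Θ hd hA q p a h hq hp hqd haq hah hcase
  have hne : Nonempty (Fin d) := ⟨⟨0, hd⟩⟩
  have hone : (1 : Module.End K (Fin d → K)) ≠ 0 := one_ne_zero
  -- normalisation
  have norm : ∀ (t : L) (n : ℕ), 0 < n → t ^ n = 1 → ∃ g gi : Module.End K (Fin d → K),
      gi * g = 1 ∧ g * gi = 1 ∧ Rl ρ A Θ t g ∧ g ^ n = 1 := by
    intro t n hn ht
    obtain ⟨g, gi, h1, h2, h3⟩ := exists_rl ρ M A Θ hM hA t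
    have h4 := rl_pow ρ M A Θ hM hA h3 n
    rw [ht] at h4
    obtain ⟨c, hc⟩ := rl_scal ρ M A Θ hM hA (rl_one ρ A Θ) h4 (one_mul 1) (one_mul 1)
    have hc0 : c ≠ 0 := by
      rintro rfl
      rw [zero_smul] at hc
      have hu : IsUnit g := ⟨⟨g, gi, h2, h1⟩, rfl⟩
      have hu' := hu.pow n
      rw [hc] at hu'
      exact hone (by
        obtain ⟨v, hv⟩ := hu'
        have e : (v : Module.End K (Fin d → K)) * (v⁻¹ : (Module.End K (Fin d → K))ˣ) = 1 :=
          v.mul_inv
        rw [hv, zero_mul] at e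
        exact e.symm)
    obtain ⟨e, he⟩ := IsAlgClosed.exists_pow_nat_eq c hn
    have he0 : e ≠ 0 := by
      rintro rfl
      rw [zero_pow hn.ne'] at he
      exact hc0 he.symm
    refine ⟨e⁻¹ • g, e • gi, ?_, ?_, rl_smul ρ A Θ h3 _, ?_⟩
    · rw [smul_mul_smul_comm, h1, mul_inv_cancel₀ he0, one_smul]
    · rw [smul_mul_smul_comm, h2, inv_mul_cancel₀ he0, one_smul]
    · rw [smul_pow, hc, smul_smul, inv_pow, he, inv_mul_cancel₀ hc0, one_smul]
  by_cases hc : p = q ∧ h ^ q = a
  · obtain ⟨hpq, hha⟩ := hc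
    have ht : h ^ (q * q) = 1 := by rw [pow_mul, hha, haq]
    obtain ⟨w, wi, h1, h2, h3, h4⟩ := norm h (q * q) (Nat.mul_pos hq.pos hq.pos) ht
    refine ⟨w ^ q, w, ?_, ?_, Or.inr ⟨hpq, hha, rfl⟩, ?_, h3⟩
    · exact (Commute.refl w).pow_left q
    · rw [← pow_mul, h4]
    · have := rl_pow ρ M A Θ hM hA h3 q
      rw [hha] at this
      exact this
  · have hhp : h ^ p = 1 := by
      rcases hcase with h1 | h1
      · exact h1
      · exact absurd h1 hc
    obtain ⟨u, ui, u1, u2, u3, u4⟩ := norm a q hq.pos haq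
    obtain ⟨w, wi, w1, w2, w3, w4⟩ := norm h p hp.pos hhp
    have r1 := rl_mul ρ M A Θ hM hA u3 w3
    have r2 := rl_mul ρ M A Θ hM hA w3 u3
    rw [← hah] at r2
    have hwu1 : (ui * wi) * (w * u) = 1 := by
      rw [mul_assoc, ← mul_assoc wi, w1, one_mul, u1]
    have hwu2 : (w * u) * (ui * wi) = 1 := by
      rw [mul_assoc, ← mul_assoc u, u2, one_mul, w2]
    obtain ⟨z, hz⟩ := rl_scal ρ M A Θ hM hA r2 r1 hwu1 hwu2
    -- z ^ q = 1
    have hzq : z ^ q = 1 := by
      have key : ∀ k : ℕ, u ^ k * w = z ^ k • (w * u ^ k) := by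
        intro k
        induction k with
        | zero => simp
        | succ k ih =>
          rw [pow_succ', mul_assoc, ih, mul_smul_comm, ← mul_assoc, hz, smul_mul_assoc,
            smul_smul, mul_assoc, ← pow_succ]
      have h5 := key q
      rw [u4, one_mul, mul_one] at h5
      have h6 : (z ^ q) • (1 : Module.End K (Fin d → K)) = (1 : K) • 1 := by
        have : (z ^ q • w) * wi = w * wi := by rw [← h5]
        rw [smul_mul_assoc, w2] at this
        rw [this, one_smul]
      exact smul_left_injective K hone h6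
    have hzd : z ^ d = 1 := by
      have h5 := congrArg LinearMap.det hz
      have h5a : LinearMap.det (u * w) = LinearMap.det u * LinearMap.det w := map_mul _ _ _
      have h5b : LinearMap.det (w * u) = LinearMap.det w * LinearMap.det u := map_mul _ _ _
      rw [LinearMap.det_smul, h5a, h5b, Module.finrank_fin_fun] at h5
      have h6 : LinearMap.det u * LinearMap.det w ≠ 0 := by
        have h7 : LinearMap.det ((w * u) * (ui * wi)) = 1 := by rw [hwu2]; exact map_one _
        have h8 : LinearMap.det ((w * u) * (ui * wi)) =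
          LinearMap.det (w * u) * LinearMap.det (ui * wi) := map_mul _ _ _
        intro h0
        rw [h8, h5b, mul_comm (LinearMap.det w), h0, zero_mul] at h7
        exact zero_ne_one h7
      rw [mul_comm (LinearMap.det w)] at h5
      exact (mul_eq_right₀ h6).mp h5.symm
    have hz1 : z = 1 := by
      have h5 : orderOf z ∣ q := orderOf_dvd_of_pow_eq_one hzq
      have h6 : orderOf z ∣ d := orderOf_dvd_of_pow_eq_one hzd
      have h7 : Nat.Coprime q d := (Nat.Prime.coprime_iff_not_dvd hq).mpr hqd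
      have h8 : orderOf z ∣ 1 := by
        rw [← h7]
        exact Nat.dvd_gcd h5 h6
      exact orderOf_eq_one_iff.mp (Nat.dvd_one.mp h8)
    rw [hz1, one_smul] at hz
    exact ⟨u, w, hz, u4, Or.inl ⟨hhp, w4⟩, u3, w3⟩

end Pool.Agent.H91.NY.AC2
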