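import Pool.Agent.H11.NY.Targets

set_option autoImplicit false

namespace Pool.Agent.H91.NY.AC3

open Pool.Agent.H11.NY

/-- fibre count over the quotient by a normal subgroup contained in `M` -/
theorem fib_card {L : Type} [Group L] [Finite L] (M Z : Subgroup L) [Z.Normal] (hZM : Z ≤ M)
    (P : L ⧸ Z → Prop) :
    Nat.card {x : L // x ∈ M ∧ P (x : L ⧸ Z)} =
      Nat.card {c : ((QuotientGroup.mk' Z).comp M.subtype).range // P c.1} * Nat.card Z := by
  classical
  have hk : ∀ c : ((QuotientGroup.mk' Z).comp M.subtype).range, ∃ x : L, x ∈ M ∧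
      (x : L ⧸ Z) = c.1 := by
    rintro ⟨c, ⟨x, hx⟩⟩
    exact ⟨x.1, x.2, hx⟩
  choose k hkM hkc using hk
  rw [← Nat.card_prod]
  refine Nat.card_congr ⟨fun x => ⟨⟨⟨(x.1 : L ⧸ Z), ⟨⟨x.1, x.2.1⟩, rfl⟩⟩, x.2.2⟩,
      ⟨(k ⟨(x.1 : L ⧸ Z), ⟨⟨x.1, x.2.1⟩, rfl⟩⟩)⁻¹ * x.1, ?_⟩⟩,
    fun y => ⟨k y.1.1 * y.2.1, ?_, ?_⟩, ?_, ?_⟩
  · rw [← QuotientGroup.eq]
    exact hkc _
  · exact M.mul_mem (hkM _) (hZM y.2.2)
  · have : ((k y.1.1 * y.2.1 : L) : L ⧸ Z) = y.1.1.1 := by
      rw [← hkc y.1.1]
      rw [QuotientGroup.eq]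
      rw [mul_inv_rev, mul_assoc, inv_mul_cancel, mul_one]
      exact Z.inv_mem y.2.2
    rw [this]
    exact y.1.2
  · intro x
    apply Subtype.ext
    show k _ * ((k _)⁻¹ * x.1) = x.1
    rw [mul_inv_cancel_left]
  · rintro ⟨⟨c, hc⟩, ⟨z, hz⟩⟩
    have h1 : ((k c * z : L) : L ⧸ Z) = c.1 := by
      rw [← hkc c]
      rw [QuotientGroup.eq]
      rw [mul_inv_rev, mul_assoc, inv_mul_cancel, mul_one]
      exact Z.inv_mem hz
    have h2 : (⟨((k c * z : L) : L ⧸ Z), ⟨⟨k c * z, M.mul_mem (hkM _) (hZM hz)⟩, rfl⟩⟩ :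
        ((QuotientGroup.mk' Z).comp M.subtype).range) = c := Subtype.ext h1
    apply Prod.ext
    · apply Subtype.ext
      exact h2
    · apply Subtype.ext
      show (k _)⁻¹ * (k c * z) = z
      have h3 : k ⟨((k c * z : L) : L ⧸ Z), ⟨⟨k c * z, M.mul_mem (hkM _) (hZM hz)⟩, rfl⟩⟩ = k c :=
        congrArg k h2
      rw [h3, inv_mul_cancel_left]

theorem pf_ac3 : T_AC3 := by
  classical
  intro L _ _ K V _ _ _ _ ρ M Z hM hZM hsc _ d A Θ hd hcard hA a h hah u w hu hw hau hhw b hb
  have rinv : ∀ t : L, ρ t * ρ t⁻¹ = 1 := fun t => by rw [← map_mul, mul_inv_cancel, map_one]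
  have linv : ∀ t : L, ρ t⁻¹ * ρ t = 1 := fun t => by rw [← map_mul, inv_mul_cancel, map_one]
  have hZn : Z.Normal := by
    constructor
    intro x hx t
    have hxM : t * x * t⁻¹ ∈ M := hM.conj_mem x (hZM hx) t
    rw [hsc _ hxM]
    obtain ⟨z, hz⟩ := (hsc x (hZM hx)).mp hx
    refine ⟨z, fun v => ?_⟩
    rw [map_mul, map_mul]
    show ρ t (ρ x (ρ t⁻¹ v)) = z • v
    rw [hz, map_smul]
    have : ρ t (ρ t⁻¹ v) = v := by
      have := congrArg (fun f => f v) (rinv t)
      exact this
    rw [this]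
  have := hZn
  have := hM
  -- conjugation on A
  have conj_mem : ∀ (t : L) (y : Module.End K V), y ∈ A → ρ t * y * ρ t⁻¹ ∈ A := by
    intro t y hy
    have h1 : y ∈ Subalgebra.toSubmodule A := hy
    clear hy
    rw [hA] at h1
    have h2 : ρ t * y * ρ t⁻¹ ∈ Subalgebra.toSubmodule A := by
      rw [hA]
      induction h1 using Submodule.span_induction with
      | mem x hx =>
        obtain ⟨m, hm, rfl⟩ := hx
        refine Submodule.subset_span ⟨t * m * t⁻¹, hM.conj_mem m hm t, ?_⟩
        rw [map_mul, map_mul]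
      | zero => rw [mul_zero, zero_mul]; exact Submodule.zero_mem _
      | add x y _ _ hx hy => rw [mul_add, add_mul]; exact Submodule.add_mem _ hx hy
      | smul a x _ hx =>
        rw [mul_smul_comm, smul_mul_assoc]; exact Submodule.smul_mem _ _ hx
    exact h2
  let F : L → A →ₗ[K] A := fun t =>
    { toFun := fun y => ⟨ρ t * y * ρ t⁻¹, conj_mem t y y.2⟩
      map_add' := by
        intro x y
        apply Subtype.ext
        show ρ t * ((x : Module.End K V) + (y : Module.End K V)) * ρ t⁻¹ =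
          (ρ t * x * ρ t⁻¹) + (ρ t * y * ρ t⁻¹)
        rw [mul_add, add_mul]
      map_smul' := by
        intro r x
        apply Subtype.ext
        show ρ t * (r • (x : Module.End K V)) * ρ t⁻¹ = r • (ρ t * x * ρ t⁻¹)
        rw [mul_smul_comm, smul_mul_assoc] }
  have hF : ∀ t y, ((F t y : A) : Module.End K V) = ρ t * y * ρ t⁻¹ := fun t y => rfl
  -- the index set
  set f : M →* L ⧸ Z := (QuotientGroup.mk' Z).comp M.subtype with hf
  haveI : Finite (L ⧸ Z) := inferInstance
  let _ : Fintype f.range := Fintype.ofFinite _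
  have hk : ∀ c : f.range, ∃ x : L, x ∈ M ∧ (x : L ⧸ Z) = c.1 := by
    rintro ⟨c, ⟨x, hx⟩⟩
    exact ⟨x.1, x.2, hx⟩
  choose k hkM hkc using hk
  have hMA : ∀ x ∈ M, ρ x ∈ A := by
    intro x hx
    have : ρ x ∈ Subalgebra.toSubmodule A := by
      rw [hA]
      exact Submodule.subset_span ⟨x, hx, rfl⟩
    exact this
  have hcM : Nat.card M = Nat.card f.range * Nat.card Z := by
    have h1 := fib_card M Z hZM (fun _ => True)
    have h2 : Nat.card {x : L // x ∈ M ∧ True} = Nat.card M :=
      Nat.card_congr (Equiv.subtypeEquivRight fun x => by simp)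
    have h3 : Nat.card {c : f.range // True} = Nat.card f.range :=
      Nat.card_congr (Equiv.subtypeUnivEquiv fun _ => trivial)
    rw [h2] at h1
    rw [h1]
    congr 1
  have hZpos : 0 < Nat.card Z := Nat.card_pos
  have hcO : Fintype.card f.range = d * d := by
    rw [hcM] at hcard
    have := Nat.eq_of_mul_eq_mul_right hZpos hcard
    rw [← this, Nat.card_eq_fintype_card]
  have hfin : Module.finrank K A = d * d := by
    rw [Θ.toLinearEquiv.finrank_eq, Module.finrank_linearMap, Module.finrank_fin_fun]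
  -- scalars
  have hscal : ∀ x ∈ M, ∀ c : f.range, (x : L ⧸ Z) = c.1 → ∃ z : K, ρ x = z • ρ (k c) := by
    intro x hx c hxc
    have h1 : (k c)⁻¹ * x ∈ Z := by
      rw [← QuotientGroup.eq, hkc, hxc]
    obtain ⟨z, hz⟩ := (hsc _ (hZM h1)).mp h1
    refine ⟨z, ?_⟩
    apply LinearMap.ext
    intro v
    have h2 : x = k c * ((k c)⁻¹ * x) := by rw [mul_inv_cancel_left]
    calc ρ x v = ρ (k c * ((k c)⁻¹ * x)) v := by rw [← h2]
      _ = ρ (k c) (ρ ((k c)⁻¹ * x) v) := by rw [map_mul]; rfl
      _ = z • ρ (k c) v := by rw [hz, map_smul]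
  let bv : f.range → A := fun c => ⟨ρ (k c), hMA _ (hkM c)⟩
  have hspan : ⊤ ≤ Submodule.span K (Set.range bv) := by
    intro y _
    have h1 : (y : Module.End K V) ∈ Subalgebra.toSubmodule A := y.2
    have h2 : (Submodule.span K (Set.range bv)).map (Subalgebra.toSubmodule A).subtype =
        Subalgebra.toSubmodule A := by
      apply le_antisymm
      · rintro _ ⟨x, _, rfl⟩
        exact x.2
      · conv_lhs => rw [hA]
        rw [Submodule.span_le]
        rintro _ ⟨x, hx, rfl⟩
        obtain ⟨z, hz⟩ := hscal x hx ⟨(x : L ⧸ Z), ⟨⟨x, hx⟩, rfl⟩⟩ rfl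
        refine ⟨z • bv ⟨(x : L ⧸ Z), ⟨⟨x, hx⟩, rfl⟩⟩, ?_, ?_⟩
        · exact Submodule.smul_mem _ _ (Submodule.subset_span ⟨_, rfl⟩)
        · exact hz.symm
    rw [← h2] at h1
    obtain ⟨x, hx, hxy⟩ := h1
    have : x = y := Subtype.ext hxy
    rw [← this]
    exact hx
  let B : Module.Basis f.range K A := basisOfTopLeSpanOfCardEqFinrank bv hspan
    (by rw [hcO, hfin])
  have hB : ∀ c, B c = bv c := fun c => by
    rw [coe_basisOfTopLeSpanOfCardEqFinrank]
  -- the action
  let E : Subgroup L := Subgroup.closure {a, h}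
  have hact : ∀ (t : L) (c : f.range), (t : L ⧸ Z) * c.1 * (t : L ⧸ Z)⁻¹ ∈ f.range := by
    rintro t ⟨_, ⟨x, rfl⟩⟩
    refine ⟨⟨t * x.1 * t⁻¹, hM.conj_mem x.1 x.2 t⟩, ?_⟩
    show ((t * x.1 * t⁻¹ : L) : L ⧸ Z) = (t : L ⧸ Z) * (x.1 : L ⧸ Z) * (t : L ⧸ Z)⁻¹
    rw [QuotientGroup.mk_mul, QuotientGroup.mk_mul, QuotientGroup.mk_inv]
  letI act : MulAction E f.range :=
    { smul := fun t c => ⟨(t.1 : L ⧸ Z) * c.1 * (t.1 : L ⧸ Z)⁻¹, hact t.1 c⟩
      one_smul := by
        intro c
        apply Subtype.ext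
        show ((1 : L) : L ⧸ Z) * c.1 * ((1 : L) : L ⧸ Z)⁻¹ = c.1
        rw [QuotientGroup.mk_one, one_mul, inv_one, mul_one]
      mul_smul := by
        intro s t c
        apply Subtype.ext
        show ((s.1 * t.1 : L) : L ⧸ Z) * c.1 * ((s.1 * t.1 : L) : L ⧸ Z)⁻¹ =
          (s.1 : L ⧸ Z) * ((t.1 : L ⧸ Z) * c.1 * (t.1 : L ⧸ Z)⁻¹) * (s.1 : L ⧸ Z)⁻¹
        rw [QuotientGroup.mk_mul, mul_inv_rev]
        simp only [mul_assoc] }
  have hsm : ∀ (t : E) (c : f.range), ((t • c : f.range) : L ⧸ Z) =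
      (t.1 : L ⧸ Z) * c.1 * (t.1 : L ⧸ Z)⁻¹ := fun t c => rfl
  have hco : ∀ (t : E) (c : f.range), ∃ z : K, F t.1 (B c) = z • B (t • c) := by
    intro t c
    have h1 : t.1 * k c * t.1⁻¹ ∈ M := hM.conj_mem _ (hkM c) _
    have h2 : ((t.1 * k c * t.1⁻¹ : L) : L ⧸ Z) = ((t • c : f.range) : L ⧸ Z) := by
      rw [hsm, QuotientGroup.mk_mul, QuotientGroup.mk_mul, QuotientGroup.mk_inv, hkc]
    obtain ⟨z, hz⟩ := hscal _ h1 (t • c) h2
    refine ⟨z, ?_⟩
    apply Subtype.ext
    rw [hF, hB, hB]
    show ρ t.1 * ρ (k c) * ρ t.1⁻¹ = z • ρ (k (t • c))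
    rw [← hz, map_mul, map_mul]
  have hrep : ∀ (t : E) (c : f.range) (y : A), F t.1 y = y → B.repr y c = 0 →
      B.repr y (t • c) = 0 := by
    intro t c y hy hc
    choose z hz using hco t
    have h1 : (B.coord (t • c)).comp (F t.1) = z c • B.coord c := by
      apply B.ext
      intro c'
      rw [LinearMap.comp_apply, hz, map_smul, LinearMap.smul_apply, Module.Basis.coord_apply,
        Module.Basis.coord_apply, Module.Basis.repr_self, Module.Basis.repr_self,
        Finsupp.single_apply, Finsupp.single_apply]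
      by_cases hcc : c' = c
      · subst hcc; simp
      · have : t • c' ≠ t • c := fun h => hcc (MulAction.injective t h)
        rw [if_neg this, if_neg hcc, smul_zero, smul_zero]
    have h2 := congrArg (fun g => g y) h1
    simp only [LinearMap.comp_apply, LinearMap.smul_apply, Module.Basis.coord_apply] at h2
    rw [hy] at h2
    rw [h2, hc, smul_zero]
  -- elements of Comm2
  have hcomm : ∀ y ∈ Comm2 u w, ∀ t : E, F t.1 (Θ.symm y) = Θ.symm y := by
    intro y hy
    have hgen : ∀ (t : L) (g : Module.End K (Fin d → K)), IsUnit g →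
        (∀ y y' : A, (y' : Module.End K V) * ρ t = ρ t * (y : Module.End K V) →
          Θ y' * g = g * Θ y) → y * g = g * y →
        ((Θ.symm y : A) : Module.End K V) * ρ t = ρ t * ((Θ.symm y : A) : Module.End K V) := by
      intro t g hg hrel hyg
      have h1 : ((F t (Θ.symm y) : A) : Module.End K V) * ρ t =
          ρ t * ((Θ.symm y : A) : Module.End K V) := by
        rw [hF, mul_assoc, linv, mul_one]
      have h2 := hrel _ _ h1
      rw [Θ.apply_symm_apply, ← hyg] at h2
      have h3 := hg.mul_right_cancel h2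
      have h4 : F t (Θ.symm y) = Θ.symm y := by
        apply Θ.injective
        rw [h3, Θ.apply_symm_apply]
      rw [h4] at h1
      exact h1
    have ha := hgen a u hu hau hy.1
    have hh := hgen h w hw hhw hy.2
    have hall : ∀ t ∈ E, ((Θ.symm y : A) : Module.End K V) * ρ t =
        ρ t * ((Θ.symm y : A) : Module.End K V) := by
      intro t ht
      induction ht using Subgroup.closure_induction with
      | mem x hx =>
        rcases hx with rfl | hx
        · exact ha
        · rw [Set.mem_singleton_iff] at hx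
          rw [hx]; exact hh
      | one => rw [map_one, mul_one, one_mul]
      | mul x y' _ _ hx hy' =>
        rw [map_mul, ← mul_assoc, hx, mul_assoc, hy', mul_assoc]
      | inv x _ hx =>
        have : ρ x⁻¹ * (((Θ.symm y : A) : Module.End K V) * ρ x) * ρ x⁻¹ =
            ρ x⁻¹ * (ρ x * ((Θ.symm y : A) : Module.End K V)) * ρ x⁻¹ := by rw [hx]
        rw [← mul_assoc, mul_assoc _ (ρ x) (ρ x⁻¹), rinv, mul_one, ← mul_assoc (ρ x⁻¹) (ρ x),
          linv, one_mul] at this
        exact this.symm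
    intro t
    apply Subtype.ext
    rw [hF, ← hall t.1 t.2, mul_assoc, rinv, mul_one]
  -- dimension bound
  let _ : Fintype E := Fintype.ofFinite _
  let _ : Fintype (MulAction.orbitRel.Quotient E f.range) := Fintype.ofFinite _
  let ℓ : Comm2 u w →ₗ[K] (MulAction.orbitRel.Quotient E f.range → K) :=
    { toFun := fun y o => B.repr (Θ.symm (y : Module.End K (Fin d → K))) o.out
      map_add' := by
        intro x y
        funext o
        show B.repr (Θ.symm ((x : Module.End K (Fin d → K)) + y)) o.out = _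
        rw [map_add, map_add]
        rfl
      map_smul' := by
        intro r x
        funext o
        show B.repr (Θ.symm (r • (x : Module.End K (Fin d → K)))) o.out = _
        rw [map_smul, map_smul]
        rfl }
  have hzero : ∀ y : Comm2 u w, ℓ y = 0 → y = 0 := by
    intro y hy
    have h1 : ∀ c : f.range, B.repr (Θ.symm (y : Module.End K (Fin d → K))) c = 0 := by
      intro c
      have h2 : B.repr (Θ.symm (y : Module.End K (Fin d → K)))
          (Quotient.out (Quotient.mk'' c : MulAction.orbitRel.Quotient E f.range)) = 0 :=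
        congrFun hy (Quotient.mk'' c)
      have h3 : (MulAction.orbitRel E f.range)
          (Quotient.out (Quotient.mk'' c : MulAction.orbitRel.Quotient E f.range)) c :=
        Quotient.exact (Quotient.out_eq _)
      have h4 : (MulAction.orbitRel E f.range) c
          (Quotient.out (Quotient.mk'' c : MulAction.orbitRel.Quotient E f.range)) :=
        (MulAction.orbitRel E f.range).symm' h3
      rw [MulAction.orbitRel_apply, MulAction.mem_orbit_iff] at h4
      obtain ⟨t, ht⟩ := h4
      rw [← ht]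
      exact hrep t _ _ (hcomm _ y.2 t) h2
    have h2 : Θ.symm (y : Module.End K (Fin d → K)) = 0 := by
      apply B.repr.injective
      rw [map_zero]
      ext c
      exact h1 c
    have h3 : (y : Module.End K (Fin d → K)) = 0 := by
      have := congrArg Θ h2
      rwa [Θ.apply_symm_apply, map_zero] at this
    exact Subtype.ext h3
  have hinj : Function.Injective ℓ := by
    intro x y hxy
    have h1 : ℓ (x - y) = 0 := by
      funext o
      show B.repr (Θ.symm ((x : Module.End K (Fin d → K)) - y)) o.out = 0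
      rw [map_sub, map_sub, Finsupp.sub_apply, sub_eq_zero]
      exact congrFun hxy o
    exact sub_eq_zero.mp (hzero _ h1)
  have hfr : Module.finrank K (Comm2 u w) ≤
      Fintype.card (MulAction.orbitRel.Quotient E f.range) := by
    have := LinearMap.finrank_le_finrank_of_injective hinj
    rwa [Module.finrank_fintype_fun_eq_card] at this
  have hburn := MulAction.sum_card_fixedBy_eq_card_orbits_mul_card_group E f.range
  have hfix : ∀ t : E, Fintype.card (MulAction.fixedBy f.range t) * Nat.card Z =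
      Nat.card {x : L // x ∈ M ∧ t.1 * x * t.1⁻¹ * x⁻¹ ∈ Z} := by
    intro t
    have h1 := fib_card M Z hZM
      (fun c => (t.1 : L ⧸ Z) * c * (t.1 : L ⧸ Z)⁻¹ = c)
    have h2 : Nat.card {x : L // x ∈ M ∧
        (t.1 : L ⧸ Z) * (x : L ⧸ Z) * (t.1 : L ⧸ Z)⁻¹ = (x : L ⧸ Z)} =
        Nat.card {x : L // x ∈ M ∧ t.1 * x * t.1⁻¹ * x⁻¹ ∈ Z} := by
      refine Nat.card_congr (Equiv.subtypeEquivRight fun x => ?_)
      refine and_congr_right fun _ => ?_
      rw [← QuotientGroup.mk_inv, ← QuotientGroup.mk_mul, ← QuotientGroup.mk_mul]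
      constructor
      · intro h
        have := QuotientGroup.eq.mp h.symm
        have h3 := hZn.conj_mem _ this x
        have e : x * (x⁻¹ * (t.1 * x * t.1⁻¹)) * x⁻¹ = t.1 * x * t.1⁻¹ * x⁻¹ := by group
        rw [e] at h3
        exact h3
      · intro h
        symm
        apply QuotientGroup.eq.mpr
        have h3 := hZn.conj_mem _ h x⁻¹
        have e : x⁻¹ * (t.1 * x * t.1⁻¹ * x⁻¹) * x⁻¹⁻¹ = x⁻¹ * (t.1 * x * t.1⁻¹) := by group
        rw [e] at h3
        exact h3
    have h3 : Fintype.card (MulAction.fixedBy f.range t) =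
        Nat.card {c : f.range // (t.1 : L ⧸ Z) * c.1 * (t.1 : L ⧸ Z)⁻¹ = c.1} := by
      rw [← Nat.card_eq_fintype_card]
      refine Nat.card_congr (Equiv.subtypeEquivRight fun c => ?_)
      rw [MulAction.mem_fixedBy, Subtype.ext_iff, hsm]
    rw [h3, ← h2, h1]
  have hEc : Nat.card E = Fintype.card E := Nat.card_eq_fintype_card
  show Module.finrank K (Comm2 u w) * Nat.card E * Nat.card Z ≤ Nat.card M + Nat.card E * b
  calc Module.finrank K (Comm2 u w) * Nat.card E * Nat.card Z
      ≤ Fintype.card (MulAction.orbitRel.Quotient E f.range) * Nat.card E * Nat.card Z :=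
        Nat.mul_le_mul_right _ (Nat.mul_le_mul_right _ hfr)
    _ = (∑ t : E, Fintype.card (MulAction.fixedBy f.range t)) * Nat.card Z := by
        rw [hburn, hEc]
    _ = ∑ t : E, Nat.card {x : L // x ∈ M ∧ t.1 * x * t.1⁻¹ * x⁻¹ ∈ Z} := by
        rw [Finset.sum_mul]
        exact Finset.sum_congr rfl fun t _ => hfix t
    _ ≤ ∑ t : E, ((if t = 1 then Nat.card M else 0) + b) := by
        refine Finset.sum_le_sum fun t _ => ?_
        by_cases ht : t = 1
        · rw [if_pos ht]
          refine le_trans ?_ (Nat.le_add_right _ _)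
          exact Nat.card_le_card_of_injective
            (fun x : {x : L // x ∈ M ∧ t.1 * x * t.1⁻¹ * x⁻¹ ∈ Z} => (⟨x.1, x.2.1⟩ : M))
            (fun x y hxy => Subtype.ext (congrArg (fun m : M => m.1) hxy))
        · rw [if_neg ht, zero_add]
          exact hb t.1 t.2 (fun h1 => ht (Subtype.ext h1))
    _ = Nat.card M + Nat.card E * b := by
        rw [Finset.sum_add_distrib, Finset.sum_ite_eq' Finset.univ (1 : E) (fun _ => Nat.card M),
          if_pos (Finset.mem_univ _), Finset.sum_const, Finset.card_univ, hEc, smul_eq_mul]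

end Pool.Agent.H91.NY.AC3
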